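import Pool.Agent.helper7.DF.Spec2
import Pool.Agent.helper31.LP.Pnt

set_option autoImplicit false

open Finset Filter

namespace Pool.Agent.DFO

theorem PRC_theta (k : ℕ) (hk : 1 ≤ k) :
    Chebyshev.theta (3 * (k : ℝ) / 4) ≤ Chebyshev.theta ((k : ℝ) / 2) + #(PK k) * Real.log k := by
  classical
  unfold Chebyshev.theta
  set S := (Ioc 0 ⌊3 * (k : ℝ) / 4⌋₊).filter Nat.Prime with hS
  set T := (Ioc 0 ⌊(k : ℝ) / 2⌋₊).filter Nat.Prime with hT
  have hsub : S ⊆ T ∪ PK k := by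
    intro p hp
    rw [hS, mem_filter, mem_Ioc] at hp
    obtain ⟨⟨h0, h1⟩, hpp⟩ := hp
    have h2 : (p : ℝ) ≤ 3 * (k : ℝ) / 4 := (Nat.le_floor_iff (by positivity)).1 h1
    rw [mem_union]
    by_cases h3 : 2 * p ≤ k
    · left
      rw [hT, mem_filter, mem_Ioc]
      refine ⟨⟨h0, Nat.le_floor ?_⟩, hpp⟩
      have : (2 : ℝ) * p ≤ k := by exact_mod_cast h3
      linarith
    · right
      unfold PK
      rw [mem_filter, mem_Icc]
      have h4 : 4 * p ≤ 3 * k := by
        have : (4 : ℝ) * p ≤ 3 * k := by linarith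
        exact_mod_cast this
      exact ⟨⟨h0, by omega⟩, hpp, by omega, h4⟩
  have hnn : ∀ p : ℕ, 0 ≤ Real.log (p : ℝ) := fun p => Real.log_natCast_nonneg p
  calc ∑ p ∈ S, Real.log (p : ℝ) ≤ ∑ p ∈ T ∪ PK k, Real.log (p : ℝ) :=
        sum_le_sum_of_subset_of_nonneg hsub (fun p _ _ => hnn p)
    _ ≤ ∑ p ∈ T ∪ PK k, Real.log (p : ℝ) + ∑ p ∈ T ∩ PK k, Real.log (p : ℝ) :=
        le_add_of_nonneg_right (sum_nonneg fun p _ => hnn p)
    _ = ∑ p ∈ T, Real.log (p : ℝ) + ∑ p ∈ PK k, Real.log (p : ℝ) := sum_union_inter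
    _ ≤ ∑ p ∈ T, Real.log (p : ℝ) + #(PK k) * Real.log k := by
        have : ∑ p ∈ PK k, Real.log (p : ℝ) ≤ ∑ p ∈ PK k, Real.log (k : ℝ) := by
          refine sum_le_sum fun p hp => ?_
          unfold PK at hp
          rw [mem_filter, mem_Icc] at hp
          have h1 : (0 : ℝ) < p := by exact_mod_cast hp.1.1
          exact Real.log_le_log h1 (by exact_mod_cast hp.1.2)
        rw [sum_const, nsmul_eq_mul] at this
        linarith

theorem PRC : PRC_stmt := by
  have h1 := Pool.Agent.helper31.LP.theta_pnt (δ := 1 / 25) (by norm_num)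
  have hA : Tendsto (fun k : ℕ => 3 * (k : ℝ) / 4) atTop atTop := by
    have : Tendsto (fun k : ℕ => (3 / 4 : ℝ) * (k : ℝ)) atTop atTop :=
      tendsto_natCast_atTop_atTop.const_mul_atTop (by norm_num)
    refine this.congr fun k => by ring
  have hB : Tendsto (fun k : ℕ => (k : ℝ) / 2) atTop atTop :=
    tendsto_natCast_atTop_atTop.atTop_div_const (by norm_num)
  obtain ⟨k₀, hk₀⟩ := eventually_atTop.1 (((hA.eventually h1).and (hB.eventually h1)).and
    (eventually_ge_atTop 8))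
  refine ⟨k₀, fun k hk => ?_⟩
  obtain ⟨⟨ha, hb⟩, h8⟩ := hk₀ k hk
  have h8' : (8 : ℝ) ≤ k := by exact_mod_cast h8
  have hl : ∀ y : ℝ, 3 ≤ y → y / Real.log y ≤ y := by
    intro y hy
    have hl : 1 ≤ Real.log y := by
      rw [Real.le_log_iff_exp_le (by linarith)]
      exact (Real.exp_one_lt_d9.le.trans (by norm_num)).trans hy
    exact div_le_self (by linarith) hl
  have ha' := hl (3 * (k : ℝ) / 4) (by linarith)
  have hb' := hl ((k : ℝ) / 2) (by linarith)
  have h3 := (abs_le.1 ha).1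
  have h4 := (abs_le.1 hb).2
  have h5 := PRC_theta k (by omega)
  linarith

end Pool.Agent.DFO
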